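import Pool.Agent.Q103.BG.Main

/-!
# Rank rigidity for CAT(0) groups and the growth of first Betti numbers

Let `G` act geometrically on a proper geodesically complete CAT(0) space `X`.  Theorem: if `G`
contains no rank one isometry of `X` then the first Betti numbers `b₁(H) = dim Hom(H, ℝ)` of the
finite index subgroups `H` of `G` grow slowly: there is a constant `C` such that for all `H` of
finite index and all `ρ ≥ 2`

  `b₁(H) ≤ C ([G : H] / log ρ + #{v ∈ G/H | x v = v for some x ≠ 1 with d(o, x o) ≤ ρ})`.

In particular `b₁(N) ≤ C [G : N] / log ρ` for every normal subgroup `N` of finite index which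
contains no `x ≠ 1` with `d(o, x o) ≤ ρ` (logarithmic rate in terms of the systole).  So a group
which has finite index subgroups with larger first Betti numbers contains a rank one isometry in
every geometric action on a geodesically complete CAT(0) space: alternative (iii) of rank rigidity
holds.

Idea of the proof.  A homomorphism `φ : H → ℝ` is the restriction of a unique function `F` on `G`
with `F(h g) = φ(h) + F(g)` which is harmonic on the Cayley graph and vanishes at `1`.  The
differentials `ω` of these functions form a space of dimension `b₁(H)` of functions on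
`G/H × S`.  Without rank one isometries the energy of every harmonic function on the ball of radius
`R` around any point is at least `κ (f(g s) - f(g))² log R`, with `κ` independent of the function.
If `v` is not fixed by short elements then the ball embeds in `G/H`, so
`ω(v, s)² ≤ ‖ω‖² / (κ log R)`.  The sum over an orthonormal basis is the dimension.
-/

set_option autoImplicit false

namespace Pool.Agent.Results.MP_ff40e8_al.BettiNumberGrowth

open Set Metric

/-- The inequality of Bruhat and Tits: a complete metric space is CAT(0) if and only if any two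
points `p`, `q` have a midpoint `m` such that
`d(x, m)² ≤ (d(x, p)² + d(x, q)²) / 2 - d(p, q)² / 4` for all `x`. -/
def BruhatTits (X : Type*) [MetricSpace X] : Prop := ∀ p q : X, ∃ m : X, ∀ x : X,
  dist x m ^ 2 ≤ (dist x p ^ 2 + dist x q ^ 2) / 2 - dist p q ^ 2 / 4

/-- Every geodesic segment extends to a geodesic line: for `p ≠ q` there is a line through `p` and
`q` (in a CAT(0) space it contains the unique geodesic segment from `p` to `q`). -/
def GeodesicallyComplete (X : Type*) [MetricSpace X] : Prop :=
  ∀ p q : X, p ≠ q → ∃ c : ℝ → X, Isometry c ∧ c 0 = p ∧ c (dist p q) = q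

/-- The line `c` bounds a flat half-plane: there is an isometric embedding `H` of the Euclidean
half-plane `ℝ × [0, ∞)` in `X` which extends `c`. -/
def BoundsHalfPlane {X : Type*} [MetricSpace X] (c : ℝ → X) : Prop :=
  ∃ H : ℝ × NNReal → X,
    (∀ p q : ℝ × NNReal, dist (H p) (H q) ^ 2 = (p.1 - q.1) ^ 2 + ((p.2 : ℝ) - q.2) ^ 2) ∧
    ∀ t : ℝ, H (t, 0) = c t

/-- `g` is a rank one isometry of `X`: it translates a geodesic line `c` by `τ > 0`, and this axis
does not bound a flat half-plane. -/
def IsRankOne (X : Type*) [MetricSpace X] {G : Type*} [Group G] [MulAction G X] (g : G) : Prop :=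
  ∃ (τ : ℝ) (c : ℝ → X), 0 < τ ∧ Isometry c ∧ (∀ t, g • c t = c (t + τ)) ∧ ¬ BoundsHalfPlane c

/-- The first Betti number `dim Hom(H, ℝ)`. -/
noncomputable def FirstBetti (H : Type*) [Group H] : ℕ := Module.finrank ℝ (Additive H →+ ℝ)

/-- The number of points of `G ⧸ H` fixed by some `x ≠ 1` in `G` with `d(o, x o) ≤ ρ`. -/
noncomputable def ShortFixed {X : Type*} [MetricSpace X] {G : Type*} [Group G] [MulAction G X]
    (o : X) (H : Subgroup G) (ρ : ℝ) : ℕ :=
  {v : G ⧸ H | ∃ x : G, x ≠ 1 ∧ dist o (x • o) ≤ ρ ∧ x • v = v}.ncard

/-- Let `G` act geometrically (by isometries, properly discontinuously, cocompactly) on a proper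
geodesically complete CAT(0) space `X`.  Then `G` contains a rank one isometry of `X`, or there is
a constant `C` such that for every subgroup `H` of finite index and every `ρ ≥ 2` the first Betti
number of `H` is at most `C` times `[G : H] / log ρ` plus the number of points of `G ⧸ H` fixed by
some nontrivial element of length at most `ρ`. -/
theorem result {X : Type*} [MetricSpace X] [ProperSpace X] (hX : BruhatTits X)
    (hc : GeodesicallyComplete X)
    {G : Type*} [Group G] [MulAction G X] [IsIsometricSMul G X] [ProperlyDiscontinuousSMul G X]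
    (hcc : ∃ K : Set X, IsCompact K ∧ ∀ x : X, ∃ g : G, g • x ∈ K) (o : X) :
    (∃ g : G, IsRankOne X g) ∨
      ∃ C : ℝ, ∀ (H : Subgroup G) [H.FiniteIndex] (ρ : ℝ), 2 ≤ ρ →
        Module.Finite ℝ (Additive H →+ ℝ) ∧
        (FirstBetti H : ℝ) ≤ C * (H.index / Real.log ρ + ShortFixed o H ρ) := by
  have hG : Pool.Agent.Y34.HB.Geo X G := ⟨inferInstance, inferInstance, inferInstance, hcc, hX⟩
  by_cases hno : ∀ g : G, ¬ Pool.Agent.Y34.EL.RankOne X g
  · exact Or.inr (Pool.Agent.Q103.BG.betti_growth hG hc hno o)
  · left
    push Not at hno
    obtain ⟨g, τ, c, hτ, hc, he⟩ := hno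
    refine ⟨g, τ, c, hτ, hc.1, hc.2, ?_⟩
    rintro ⟨H, hH⟩
    have : H ∈ Pool.Agent.Y34.HB.HP c := hH
    rw [he] at this
    exact this

end Pool.Agent.Results.MP_ff40e8_al.BettiNumberGrowth
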