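import Pool.Agent.Q103.FC.Main

/-!
# Rank rigidity and the Betti numbers of finite coverings of closed aspherical manifolds

Let `G` be the fundamental group of a closed aspherical `n`-manifold or, more generally, a Poincaré
duality group with a finite free resolution of length `n ≥ 2`, orientable or not, and let `G` act
geometrically on a proper geodesically complete CAT(0) space `X` (of any dimension).  Theorem: if `G`
contains no rank one isometry of `X` then there is a constant `C` such that for all subgroups `H` of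
finite index and all `ρ ≥ 2`, with

  `E = C ([G : H] / log ρ + #{v ∈ G/H | x v = v for some x ≠ 1 with d(o, x o) ≤ ρ})`,

* `b_1(H) ≤ E` and `b_(n-1)(H) ≤ E`, while `b_0(H), b_n(H) ≤ 1` and `b_i(H) = 0` for `i > n`;
* if `n = 4` then `|b_2(H) - χ(G) [G : H]| ≤ 2 + 2 E`.

So for `n = 3` all Betti numbers of the finite coverings grow slowly, and for `n = 4` the
middle Betti number is determined by the Euler characteristic up to an error of this size; a group for
which one of these statements is wrong contains a rank one isometry in every geometric action on a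
geodesically complete CAT(0) space: alternative (iii) of rank rigidity holds.

Idea of the proof.  The bound for `b_1(H) = dim Hom(H, ℝ)` is `MP_ff40e8_al/BettiNumberGrowth`
(energy of harmonic functions).  The cohomology of `H` is the cohomology of `G` with coefficients in
the functions on `G/H`.  By duality the cohomology in degree `n - 1` is the homology of the dual
resolution in degree one, whose rank is that of a transposed matrix; so it is bounded by
`dim Hom(H_w, ℝ)`, where `H_w` is the subgroup of index at most two of `H` which preserves the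
orientation.  The middle degree follows from the Euler characteristic.
-/

set_option autoImplicit false

namespace Pool.Agent.Results.MP_ff40e8_al.DualityGroupGrowth

open scoped Matrix

/-- `(c, D, ε)` is a finite free resolution of the trivial module `ℤ`: the module in degree `i` is
`ℤ[G]^(c i)` (row vectors), the boundary operators are `v ↦ v D_i`, and `c i = 0` for `i > m`. -/
structure IsFiniteFreeResolution {G : Type} [Group G] (c : ℕ → ℕ)
    (D : ∀ i, Matrix (Fin (c (i + 1))) (Fin (c i)) (MonoidAlgebra ℤ G))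
    (ε : (Fin (c 0) → MonoidAlgebra ℤ G) →+ ℤ) (m : ℕ) : Prop where
  bounded : ∀ i, m < i → c i = 0
  surjective : Function.Surjective ε
  equivariant : ∀ (g : G) (v : Fin (c 0) → MonoidAlgebra ℤ G), ε (MonoidAlgebra.of ℤ G g • v) = ε v
  exact_zero : ∀ v, ε v = 0 ↔ ∃ u, u ᵥ* D 0 = v
  exact_succ : ∀ (i : ℕ) (v : Fin (c (i + 1)) → MonoidAlgebra ℤ G),
    v ᵥ* D i = 0 ↔ ∃ u, u ᵥ* D (i + 1) = v

/-- The Euler characteristic `∑ (-1)^i c_i`. -/
def eulerCharacteristic (c : ℕ → ℕ) (m : ℕ) : ℤ := ∑ i ∈ Finset.range (m + 1), (-1) ^ i * (c i : ℤ)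

/-- The multiplication of a column vector by `g` from the right. -/
noncomputable def rightMul {G : Type} [Group G] {b : ℕ} (u : Fin b → MonoidAlgebra ℤ G) (g : G) :
    Fin b → MonoidAlgebra ℤ G := fun j => u j * MonoidAlgebra.of ℤ G g

/-- Poincaré duality in the degrees `n` and `n - 1`, where `D₁`, `D₀` are the boundary operators in
the degrees `n` and `n - 1`: `H^n(G; ℤ[G]) ≅ ℤ`, where `g ∈ G` acts by `w(g)`, and
`H^(n-1)(G; ℤ[G]) = 0`.  A column vector `u` stands for the equivariant cochain `v ↦ v ⬝ u` with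
coefficients in `ℤ[G]`, and its coboundary is `D u`. -/
structure ClosedDuality {G : Type} [Group G] {a b d : ℕ}
    (D₀ : Matrix (Fin b) (Fin a) (MonoidAlgebra ℤ G))
    (D₁ : Matrix (Fin d) (Fin b) (MonoidAlgebra ℤ G)) (w : G →* ℤˣ) : Prop where
  top : ∃ θ : (Fin d → MonoidAlgebra ℤ G) →+ ℤ,
    (∀ g u, θ (rightMul u g) = ((w g : ℤˣ) : ℤ) * θ u) ∧ (∃ u, θ u = 1) ∧
    ∀ u, θ u = 0 ↔ ∃ t, D₁ *ᵥ t = u
  next : ∀ u, D₁ *ᵥ u = 0 → ∃ t, D₀ *ᵥ t = u

/-- The action of the group ring on the functions on `G ⧸ H`: `(r f)(y) = ∑_g r_g f(g⁻¹ y)`. -/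
noncomputable def act {G : Type} [Group G] {H : Subgroup G} (r : MonoidAlgebra ℤ G)
    (f : G ⧸ H → ℝ) (y : G ⧸ H) : ℝ := r.coeff.sum fun g k => (k : ℝ) * f (g⁻¹ • y)

/-- The cocycles of the covering with fundamental group `H`: an equivariant cochain on
`ℤ[G]^a` with values in the functions on `G ⧸ H`, or an `H`-equivariant cochain with real values, is an
element `u` of `(G ⧸ H → ℝ)^a`; it is a cocycle for the boundary operator `v ↦ v D` if `D u = 0`. -/
def Cocycles {G : Type} [Group G] {a b : ℕ} (D : Matrix (Fin b) (Fin a) (MonoidAlgebra ℤ G))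
    (H : Subgroup G) : Set (Fin a → G ⧸ H → ℝ) := {u | ∀ j y, ∑ k, act (D j k) (u k) y = 0}

/-- The coboundaries `D u`. -/
def Coboundaries {G : Type} [Group G] {a b : ℕ} (D : Matrix (Fin b) (Fin a) (MonoidAlgebra ℤ G))
    (H : Subgroup G) : Set (Fin b → G ⧸ H → ℝ) :=
  {z | ∃ u : Fin a → G ⧸ H → ℝ, ∀ j y, z j y = ∑ k, act (D j k) (u k) y}

/-- The Betti number `b_i(H) = dim H^i(H; ℝ)`: the dimension of the space of cocycles minus that of
the space of coboundaries. -/
noncomputable def betti {G : Type} [Group G] (c : ℕ → ℕ)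
    (D : ∀ i, Matrix (Fin (c (i + 1))) (Fin (c i)) (MonoidAlgebra ℤ G)) (H : Subgroup G) : ℕ → ℕ
  | 0 => Module.finrank ℝ (Submodule.span ℝ (Cocycles (D 0) H))
  | (i + 1) => Module.finrank ℝ (Submodule.span ℝ (Cocycles (D (i + 1)) H)) -
      Module.finrank ℝ (Submodule.span ℝ (Coboundaries (D i) H))

/-- The inequality of Bruhat and Tits: a complete metric space is CAT(0) if and only if any two
points `p`, `q` have a midpoint `m` such that
`d(x, m)² ≤ (d(x, p)² + d(x, q)²) / 2 - d(p, q)² / 4` for all `x`. -/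
def BruhatTits (X : Type*) [MetricSpace X] : Prop := ∀ p q : X, ∃ m : X, ∀ x : X,
  dist x m ^ 2 ≤ (dist x p ^ 2 + dist x q ^ 2) / 2 - dist p q ^ 2 / 4

/-- Every geodesic segment extends to a geodesic line: for `p ≠ q` there is a line through `p` and
`q` (in a CAT(0) space it contains the unique geodesic segment from `p` to `q`). -/
def GeodesicallyComplete (X : Type*) [MetricSpace X] : Prop :=
  ∀ p q : X, p ≠ q → ∃ c : ℝ → X, Isometry c ∧ c 0 = p ∧ c (dist p q) = q

/-- The line `c` bounds a flat half-plane: there is an isometric embedding `H` of the Euclidean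
half-plane `ℝ × [0, ∞)` in `X` which extends `c`. -/
def BoundsHalfPlane {X : Type*} [MetricSpace X] (c : ℝ → X) : Prop :=
  ∃ H : ℝ × NNReal → X,
    (∀ p q : ℝ × NNReal, dist (H p) (H q) ^ 2 = (p.1 - q.1) ^ 2 + ((p.2 : ℝ) - q.2) ^ 2) ∧
    ∀ t : ℝ, H (t, 0) = c t

/-- `g` is a rank one isometry of `X`: it translates a geodesic line `c` by `τ > 0`, and this axis
does not bound a flat half-plane. -/
def IsRankOne (X : Type*) [MetricSpace X] {G : Type*} [Group G] [MulAction G X] (g : G) : Prop :=
  ∃ (τ : ℝ) (c : ℝ → X), 0 < τ ∧ Isometry c ∧ (∀ t, g • c t = c (t + τ)) ∧ ¬ BoundsHalfPlane c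

/-- The number of points of `G ⧸ H` fixed by some `x ≠ 1` in `G` with `d(o, x o) ≤ ρ`. -/
noncomputable def ShortFixed {X : Type*} [MetricSpace X] {G : Type*} [Group G] [MulAction G X]
    (o : X) (H : Subgroup G) (ρ : ℝ) : ℕ :=
  {v : G ⧸ H | ∃ x : G, x ≠ 1 ∧ dist o (x • o) ≤ ρ ∧ x • v = v}.ncard

/-- The bounds for the Betti numbers of a subgroup `H` of finite index in dimension `n = q + 2`. -/
structure BettiBounds {G : Type} [Group G] (q : ℕ) (c : ℕ → ℕ)
    (D : ∀ i, Matrix (Fin (c (i + 1))) (Fin (c i)) (MonoidAlgebra ℤ G)) (H : Subgroup G)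
    (E : ℝ) : Prop where
  bottom : betti c D H 0 ≤ 1
  top : betti c D H (q + 2) ≤ 1
  beyond : ∀ i, q + 2 < i → betti c D H i = 0
  one : (betti c D H 1 : ℝ) ≤ E
  dual : (betti c D H (q + 1) : ℝ) ≤ E
  middle : q + 2 = 4 → |(betti c D H 2 : ℝ) - eulerCharacteristic c 4 * H.index| ≤ 2 + 2 * E

section bridge

open Pool.Agent.Q103.FC Pool.Agent.Helper386.PD3

variable {G : Type} [Group G] {H : Subgroup G} {a b : ℕ}

theorem fa_eq_act (r : RR G) (f : G ⧸ H → ℝ) (y : G ⧸ H) : fa r f y = act r f y := by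
  induction r using rr_ind with
  | h1 g =>
    rw [fa_of, act]
    change f (g⁻¹ • y) = (Finsupp.single g (1 : ℤ)).sum fun g k => (k : ℝ) * f (g⁻¹ • y)
    rw [Finsupp.sum_single_index (by simp)]
    simp
  | h2 r s hr hs =>
    rw [map_add]
    change fa r f y + fa s f y = _
    rw [hr, hs, act, act, act, MonoidAlgebra.coeff_add, Finsupp.sum_add_index']
    · intro g
      simp
    · intro g k l
      push_cast
      ring
  | h3 r hr =>
    rw [map_neg]
    change -(fa r f y) = _
    rw [hr, act, act, MonoidAlgebra.coeff_neg, Finsupp.sum_neg_index (by simp), Finsupp.sum,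
      Finsupp.sum, ← Finset.sum_neg_distrib]
    refine Finset.sum_congr rfl fun g _ => ?_
    push_cast
    ring

theorem dl_eq (D : Matrix (Fin b) (Fin a) (RR G)) (u : Fin a → G ⧸ H → ℝ) (j : Fin b) (y : G ⧸ H) :
    dl D u j y = ∑ k, act (D j k) (u k) y := by
  rw [Pool.Agent.Q103.FC.dl_apply, pr, Finset.sum_apply]
  exact Finset.sum_congr rfl fun k _ => fa_eq_act _ _ _

theorem cocycles_eq (D : Matrix (Fin b) (Fin a) (RR G)) :
    Submodule.span ℝ (Cocycles D H) = LinearMap.ker (dl (Y := G ⧸ H) D) := by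
  have h : Cocycles D H = (LinearMap.ker (dl (Y := G ⧸ H) D) : Set (Fin a → G ⧸ H → ℝ)) := by
    ext u
    change (∀ j y, ∑ k, act (D j k) (u k) y = 0) ↔ dl D u = 0
    constructor
    · intro h
      funext j y
      rw [dl_eq]
      exact h j y
    · intro h j y
      rw [← dl_eq, h]
      rfl
  rw [h, Submodule.span_eq]

theorem coboundaries_eq (D : Matrix (Fin b) (Fin a) (RR G)) :
    Submodule.span ℝ (Coboundaries D H) = LinearMap.range (dl (Y := G ⧸ H) D) := by
  have h : Coboundaries D H = (LinearMap.range (dl (Y := G ⧸ H) D) : Set (Fin b → G ⧸ H → ℝ)) := by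
    ext z
    constructor
    · rintro ⟨u, hu⟩
      refine ⟨u, ?_⟩
      funext j y
      rw [hu, dl_eq]
    · rintro ⟨u, rfl⟩
      exact ⟨u, fun j y => dl_eq D u j y⟩
  rw [h, Submodule.span_eq]

theorem betti_eq (c : ℕ → ℕ) (D : ∀ i, Matrix (Fin (c (i + 1))) (Fin (c i)) (RR G)) (i : ℕ) :
    betti c D H i = bt c D (G ⧸ H) i := by
  cases i with
  | zero =>
    change Module.finrank ℝ (Submodule.span ℝ (Cocycles (D 0) H)) = _
    rw [cocycles_eq]
    rfl
  | succ i =>
    change Module.finrank ℝ (Submodule.span ℝ (Cocycles (D (i + 1)) H)) -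
      Module.finrank ℝ (Submodule.span ℝ (Coboundaries (D i) H)) = _
    rw [cocycles_eq, coboundaries_eq]
    rfl

end bridge

/-- **Betti numbers of finite coverings, or a rank one isometry.**  Let `(c, D, ε)` be a finite free
resolution of `ℤ` over `ℤ[G]` of length at most `n = q + 2` with Poincaré duality in the two top
degrees, and let `G` act geometrically (by isometries, properly discontinuously, cocompactly) on a
proper geodesically complete CAT(0) space `X`, `o ∈ X`.  Then `G` contains a rank one isometry of `X`,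
or there is a constant `C ≥ 0` such that for every subgroup `H` of finite index and every `ρ ≥ 2` the
bounds `BettiBounds` hold with `E = C` times `[G : H] / log ρ` plus the number of points of `G ⧸ H`
fixed by some nontrivial element of length at most `ρ`. -/
theorem result {q : ℕ} {G : Type} [Group G] {c : ℕ → ℕ}
    {D : ∀ i, Matrix (Fin (c (i + 1))) (Fin (c i)) (MonoidAlgebra ℤ G)}
    {ε : (Fin (c 0) → MonoidAlgebra ℤ G) →+ ℤ} (hD : IsFiniteFreeResolution c D ε (q + 2))
    (w : G →* ℤˣ) (hdual : ClosedDuality (D q) (D (q + 1)) w)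
    {X : Type*} [MetricSpace X] [ProperSpace X] (hX : BruhatTits X)
    (hc : GeodesicallyComplete X) [MulAction G X] [IsIsometricSMul G X]
    [ProperlyDiscontinuousSMul G X]
    (hcc : ∃ K : Set X, IsCompact K ∧ ∀ x : X, ∃ g : G, g • x ∈ K) (o : X) :
    (∃ g : G, IsRankOne X g) ∨
      ∃ C : ℝ, 0 ≤ C ∧ ∀ (H : Subgroup G) [H.FiniteIndex] (ρ : ℝ), 2 ≤ ρ →
        BettiBounds q c D H (C * (H.index / Real.log ρ + ShortFixed o H ρ)) := by
  have hG : Pool.Agent.Y34.HB.Geo X G := ⟨inferInstance, inferInstance, inferInstance, hcc, hX⟩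
  by_cases hno : ∀ g : G, ¬ Pool.Agent.Y34.EL.RankOne X g
  · right
    obtain ⟨C, hC⟩ := Pool.Agent.Q103.BG.betti_growth hG hc hno o
    have hDD : ∀ i v, (v ᵥ* D (i + 1)) ᵥ* D i = 0 := fun i v => (hD.exact_succ i _).2 ⟨v, rfl⟩
    have hlow : Pool.Agent.Q103.FC.Low (D 0) (D 1) 1 ε :=
      { equi := fun g v => by
          rw [MonoidHom.one_apply, Units.val_one, one_mul]
          exact hD.equivariant g v
        surj := hD.surjective 1
        exact0 := fun v hv => (hD.exact_zero v).1 hv
        comp := fun u => (hD.exact_zero _).2 ⟨u, rfl⟩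
        exact1 := fun v hv => (hD.exact_succ 0 v).1 hv }
    obtain ⟨θ, t1, t2, t3⟩ := hdual.top
    have hd := Pool.Agent.Q103.FC.low_dual (D₀ := D q) (D₁ := D (q + 1)) θ t1 t2 t3 hdual.next
    obtain ⟨C', hC0, hC'⟩ := Pool.Agent.Q103.FC.bounds o c D hDD q hD.bounded hlow w hd hC
    refine ⟨C', hC0, fun H _ ρ hρ => ?_⟩
    obtain ⟨h0, h1, h2, h3, h4⟩ := hC' H ρ hρ
    have hSF : ShortFixed o H ρ = (Pool.Agent.Q103.FC.SF o H ρ).ncard := rfl
    rw [← hSF] at h3 h4
    refine ⟨?_, ?_, ?_, ?_, ?_, ?_⟩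
    · rw [betti_eq]
      exact h0
    · rw [betti_eq]
      exact h1
    · intro i hi
      rw [betti_eq]
      exact h2 i hi
    · rw [betti_eq]
      exact h3
    · rw [betti_eq]
      exact h4
    · intro hq
      obtain rfl : q = 2 := by omega
      rw [betti_eq]
      exact Pool.Agent.Q103.FC.middle (X := X) c D hDD (hD.bounded 5 (by omega)) H _ h0 h1 h3 h4
  · left
    push Not at hno
    obtain ⟨g, τ, c, hτ, hc, he⟩ := hno
    refine ⟨g, τ, c, hτ, hc.1, hc.2, ?_⟩
    rintro ⟨H, hH⟩
    have : H ∈ Pool.Agent.Y34.HB.HP c := hH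
    rw [he] at this
    exact this

end Pool.Agent.Results.MP_ff40e8_al.DualityGroupGrowth
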