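import Pool.Agent.Q103.BG.Cover

/-!
# Rank rigidity for CAT(0) groups and first `ℓ²`-Betti numbers of quotients and normal coverings

Let `G` act geometrically on a proper geodesically complete CAT(0) space `X`.  Theorem: if `G`
contains no rank one isometry of `X` then there is a constant `C` such that for every normal
subgroup `N` of `G`, of finite or of infinite index, which contains no element `x ≠ 1` with
`d(o, x o) ≤ ρ`,

  `dim_(G/N) H¹(G; ℓ²(G/N)) ≤ C / log ρ`

(reduced cohomology, von Neumann dimension over `Q = G/N`).  The left hand side is the first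
`ℓ²`-Betti number of the normal covering with group `Q` of any finite complex with fundamental
group `G`; it is at least `b₁⁽²⁾(Q)`, and it is `b₁(N) / [G : N]` if `Q` is finite.  So an infinite
quotient `Q` of `G` with a large first `ℓ²`-Betti number, for instance a non-abelian free quotient,
kills a non-trivial element of `G` whose length is bounded in terms of `b₁⁽²⁾(Q)` only; a group for
which this is wrong contains a rank one isometry in every geometric action on a geodesically complete
CAT(0) space: alternative (iii) of rank rigidity holds.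

Idea of the proof.  The reduced cohomology is represented by the functions `F` on `G` which are
harmonic on the Cayley graph and whose differential is defined on the Cayley graph of `Q` and is
square summable there.  Without rank one isometries the energy of a harmonic function on the
ball of radius `R` around any point is at least `κ (F(g s) - F(g))² log R`, with `κ` independent of
the function.  The ball embeds in `Q`, so the differential `ω` satisfies
`ω_s(q)² ≤ ‖ω‖² / (κ log R)` for all `q` and `s`, and so do its limits; this bounds the trace of the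
projection.
-/

set_option autoImplicit false

namespace Pool.Agent.Results.MP_ff40e8_al.NormalCoveringGrowth

/-- The inequality of Bruhat and Tits: a complete metric space is CAT(0) if and only if any two
points `p`, `q` have a midpoint `m` such that
`d(x, m)² ≤ (d(x, p)² + d(x, q)²) / 2 - d(p, q)² / 4` for all `x`. -/
def BruhatTits (X : Type*) [MetricSpace X] : Prop := ∀ p q : X, ∃ m : X, ∀ x : X,
  dist x m ^ 2 ≤ (dist x p ^ 2 + dist x q ^ 2) / 2 - dist p q ^ 2 / 4

/-- Every geodesic segment extends to a geodesic line: for `p ≠ q` there is a line through `p` and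
`q` (in a CAT(0) space it contains the unique geodesic segment from `p` to `q`). -/
def GeodesicallyComplete (X : Type*) [MetricSpace X] : Prop :=
  ∀ p q : X, p ≠ q → ∃ c : ℝ → X, Isometry c ∧ c 0 = p ∧ c (dist p q) = q

/-- The line `c` bounds a flat half-plane: there is an isometric embedding `H` of the Euclidean
half-plane `ℝ × [0, ∞)` in `X` which extends `c`. -/
def BoundsHalfPlane {X : Type*} [MetricSpace X] (c : ℝ → X) : Prop :=
  ∃ H : ℝ × NNReal → X,
    (∀ p q : ℝ × NNReal, dist (H p) (H q) ^ 2 = (p.1 - q.1) ^ 2 + ((p.2 : ℝ) - q.2) ^ 2) ∧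
    ∀ t : ℝ, H (t, 0) = c t

/-- `g` is a rank one isometry of `X`: it translates a geodesic line `c` by `τ > 0`, and this axis
does not bound a flat half-plane. -/
def IsRankOne (X : Type*) [MetricSpace X] {G : Type*} [Group G] [MulAction G X] (g : G) : Prop :=
  ∃ (τ : ℝ) (c : ℝ → X), 0 < τ ∧ Isometry c ∧ (∀ t, g • c t = c (t + τ)) ∧ ¬ BoundsHalfPlane c

/-- The Hilbert space `ℓ²(Q)` (with real scalars). -/
abbrev EllTwo (Q : Type) : Type := lp (fun _ : Q => ℝ) 2

/-- The Hilbert space `ℓ²(Q)^k`: the `ℓ²`-cochains on the edges of the Cayley graph of `Q` with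
respect to `k` generators. -/
abbrev Cochains (Q : Type) (k : ℕ) : Type := PiLp 2 (fun _ : Fin k => EllTwo Q)

open scoped Classical in
/-- The von Neumann dimension of the closed linear span `W'` of `W ⊆ ℓ²(Q)^k`:
`∑_j ⟨P e_j, e_j⟩`, where `P` is the orthogonal projection to `W'` and `e_j` is the unit vector at the
identity element in the `j`-th component. -/
noncomputable def vonNeumannDim {Q : Type} [Group Q] {k : ℕ} (W : Set (Cochains Q k)) : ℝ :=
  haveI : CompleteSpace (Submodule.span ℝ W).topologicalClosure :=
    (Submodule.span ℝ W).isClosed_topologicalClosure.completeSpace_coe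
  ∑ j : Fin k, (Submodule.span ℝ W).topologicalClosure.starProjection
    (WithLp.toLp 2 (Pi.single j (lp.single 2 (1 : Q) (1 : ℝ)))) j 1

/-- The `ℓ²`-harmonic one-cocycles of `G` with values in `ℓ²(Q)`, where `s` is a symmetric generating
tuple of `G` and `π : G → Q` is an epimorphism: the elements `ω` of `ℓ²(Q)^k` which are the
differential of a function `F` on `G`, `ω_i(π g) = F(g s_i) - F(g)`, harmonic on the Cayley graph
of `G`.  They represent the reduced cohomology `H¹(G; ℓ²(Q))`. -/
def HarmonicCocycles {G : Type*} [Group G] {Q : Type} [Group Q] {k : ℕ} (s : Fin k → G)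
    (π : G →* Q) : Set (Cochains Q k) :=
  {ω | ∃ F : G → ℝ, (∀ g i, ω i (π g) = F (g * s i) - F g) ∧ ∀ g, ∑ i, (F (g * s i) - F g) = 0}

/-- The first `ℓ²`-Betti number `dim_Q H¹(G; ℓ²(Q))` of the normal covering with group `Q`. -/
noncomputable def firstCoveringBetti {G : Type*} [Group G] {Q : Type} [Group Q] {k : ℕ}
    (s : Fin k → G) (π : G →* Q) : ℝ := vonNeumannDim (HarmonicCocycles s π)

/-- **First `ℓ²`-Betti numbers of normal coverings.**  Let `G` act geometrically (by isometries,
properly discontinuously, cocompactly) on a proper geodesically complete CAT(0) space `X`, let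
`o ∈ X`, and let `s` be a finite symmetric generating tuple of `G`.  Then `G` contains a rank one
isometry of `X`, or there is a constant `C` such that for every epimorphism `π : G → Q` and every
`ρ ≥ 2` such that no `x ≠ 1` in the kernel of `π` satisfies `d(o, x o) ≤ ρ`, the von Neumann
dimension of the reduced cohomology `H¹(G; ℓ²(Q))` is at most `C / log ρ`. -/
theorem result {X : Type*} [MetricSpace X] [ProperSpace X] (hX : BruhatTits X)
    (hc : GeodesicallyComplete X)
    {G : Type*} [Group G] [MulAction G X] [IsIsometricSMul G X] [ProperlyDiscontinuousSMul G X]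
    (hcc : ∃ K : Set X, IsCompact K ∧ ∀ x : X, ∃ g : G, g • x ∈ K) (o : X)
    {k : ℕ} (s : Fin k → G) (hinj : Function.Injective s) (hs : ∀ i, ∃ j, s j = (s i)⁻¹)
    (hgen : Subgroup.closure (Set.range s) = ⊤) :
    (∃ g : G, IsRankOne X g) ∨
      ∃ C : ℝ, ∀ (Q : Type) [Group Q] (π : G →* Q), Function.Surjective π → ∀ ρ : ℝ, 2 ≤ ρ →
        (∀ x : G, π x = 1 → dist o (x • o) ≤ ρ → x = 1) →
          firstCoveringBetti s π ≤ C / Real.log ρ := by
  have hG : Pool.Agent.Y34.HB.Geo X G := ⟨inferInstance, inferInstance, inferInstance, hcc, hX⟩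
  by_cases hno : ∀ g : G, ¬ Pool.Agent.Y34.EL.RankOne X g
  · right
    obtain ⟨C, hC⟩ := Pool.Agent.Q103.BG.cover_growth hG hc hno o s hinj hs hgen
    refine ⟨C, fun Q _ π _ ρ hρ hker => ?_⟩
    have h1 := hC Q π ρ hρ hker
    have h2 : firstCoveringBetti s π = Pool.Agent.Q103.SG.vd (Submodule.span ℝ
        (Pool.Agent.Q103.BG.GW s π : Set (Pool.Agent.Helper386.PD3.VV Q k))) := rfl
    rw [h2, Submodule.span_eq]
    exact h1
  · left
    push Not at hno
    obtain ⟨g, τ, c, hτ, hc, he⟩ := hno
    refine ⟨g, τ, c, hτ, hc.1, hc.2, ?_⟩
    rintro ⟨H, hH⟩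
    have : H ∈ Pool.Agent.Y34.HB.HP c := hH
    rw [he] at this
    exact this

end Pool.Agent.Results.MP_ff40e8_al.NormalCoveringGrowth
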