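import Pool.Agent.Q103.BG.RepMain

/-!
# Rank rigidity for CAT(0) groups and cohomology with coefficients in orthogonal representations

Let `G` act geometrically on a proper geodesically complete CAT(0) space `X`, `o ∈ X`.  Theorem: if
`G` contains no rank one isometry of `X` then there is a constant `C` such that for all
finite-dimensional orthogonal representations `π` of `G` and all `ρ ≥ 2`

  `dim H¹(G; π) ≤ (C / log ρ) (dim π + ∑ (|χ_π(x)| + √(dim π)))`,

the sum over the elements `x ≠ 1` of `G` with `d(o, x o) ≤ ρ`.  (Unitary representations are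
orthogonal representations on the underlying real space.)  The number of the summands is at most
exponential in `ρ`, so `dim H¹(G; π)` is at most
`C' (dim π + ∑ |χ_π(x)|) / log log (dim π)`, the sum over the `x ≠ 1` of length at most
`c log (dim π)`: for all sequences of representations with `χ_π(x) / dim π → 0` fast enough,
`dim H¹(G; π) / dim π → 0`, with a rate.  For `π = Ad ∘ σ`, `σ : G → U(n)`, the space `H¹(G; π)`
is the Zariski tangent space of the character variety at `σ`, and `χ_π = |χ_σ|²`.  So a group with
larger spaces `H¹(G; π)` contains a rank one isometry in every geometric action on a geodesically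
complete CAT(0) space: alternative (iii) of rank rigidity.

Idea of the proof.  The classes in `H¹(G; π)` are represented by harmonic cocycles `b`.  For every
vector `v` the function `g ↦ ⟨v, b(g)⟩` is harmonic on the Cayley graph.  Without rank one
isometries its energy on the ball of radius `R` is at least `κ ⟨v, b(s)⟩² log R`.  On the other hand
it is at most `‖b‖² ∑ |⟨v, π(x) v⟩|`, the sum over the ball of radius `2R` (Selberg's inequality).
This bounds the evaluations `b ↦ ⟨v, b(s)⟩` on the space of harmonic cocycles; the average over the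
sign vectors `v` in an orthonormal basis gives the bound of the dimension.
-/

set_option autoImplicit false

universe u v w

namespace Pool.Agent.Results.MP_ff40e8_al.OrthogonalRepresentations

open Set Metric

/-- The inequality of Bruhat and Tits: a complete metric space is CAT(0) if and only if any two
points `p`, `q` have a midpoint `m` such that
`d(x, m)² ≤ (d(x, p)² + d(x, q)²) / 2 - d(p, q)² / 4` for all `x`. -/
def BruhatTits (X : Type*) [MetricSpace X] : Prop := ∀ p q : X, ∃ m : X, ∀ x : X,
  dist x m ^ 2 ≤ (dist x p ^ 2 + dist x q ^ 2) / 2 - dist p q ^ 2 / 4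

/-- Every geodesic segment extends to a geodesic line: for `p ≠ q` there is a line through `p` and
`q` (in a CAT(0) space it contains the unique geodesic segment from `p` to `q`). -/
def GeodesicallyComplete (X : Type*) [MetricSpace X] : Prop :=
  ∀ p q : X, p ≠ q → ∃ c : ℝ → X, Isometry c ∧ c 0 = p ∧ c (dist p q) = q

/-- The line `c` bounds a flat half-plane: there is an isometric embedding `H` of the Euclidean
half-plane `ℝ × [0, ∞)` in `X` which extends `c`. -/
def BoundsHalfPlane {X : Type*} [MetricSpace X] (c : ℝ → X) : Prop :=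
  ∃ H : ℝ × NNReal → X,
    (∀ p q : ℝ × NNReal, dist (H p) (H q) ^ 2 = (p.1 - q.1) ^ 2 + ((p.2 : ℝ) - q.2) ^ 2) ∧
    ∀ t : ℝ, H (t, 0) = c t

/-- `g` is a rank one isometry of `X`: it translates a geodesic line `c` by `τ > 0`, and this axis
does not bound a flat half-plane. -/
def IsRankOne (X : Type*) [MetricSpace X] {G : Type*} [Group G] [MulAction G X] (g : G) : Prop :=
  ∃ (τ : ℝ) (c : ℝ → X), 0 < τ ∧ Isometry c ∧ (∀ t, g • c t = c (t + τ)) ∧ ¬ BoundsHalfPlane c

section Cohomology

variable {G : Type v} [Group G] {V : Type w} [NormedAddCommGroup V] [InnerProductSpace ℝ V]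

/-- The one-cocycles of `G` with values in the orthogonal representation `π`: the functions `b` with
`b(g h) = b(g) + π(g) b(h)`. -/
def Cocycles (π : G →* (V ≃ₗᵢ[ℝ] V)) : Submodule ℝ (G → V) where
  carrier := {b | ∀ g h, b (g * h) = b g + π g (b h)}
  add_mem' {b b'} hb hb' g h := by
    simp only [Pi.add_apply]
    rw [hb g h, hb' g h, map_add]
    abel
  zero_mem' g h := by simp
  smul_mem' c b hb g h := by
    simp only [Pi.smul_apply]
    rw [hb g h, smul_add, (π g).map_smul]

/-- The coboundaries: the functions `g ↦ π(g) v - v`. -/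
def Coboundaries (π : G →* (V ≃ₗᵢ[ℝ] V)) : Submodule ℝ (G → V) where
  carrier := {b | ∃ v, ∀ g, b g = π g v - v}
  add_mem' {b b'} := by
    rintro ⟨v, hv⟩ ⟨v', hv'⟩
    refine ⟨v + v', fun g => ?_⟩
    simp only [Pi.add_apply]
    rw [hv, hv', map_add]
    abel
  zero_mem' := ⟨0, fun g => by simp⟩
  smul_mem' c b := by
    rintro ⟨v, hv⟩
    refine ⟨c • v, fun g => ?_⟩
    simp only [Pi.smul_apply]
    rw [hv, smul_sub, (π g).map_smul]

/-- The first cohomology `H¹(G; π)`: cocycles modulo coboundaries. -/
abbrev FirstCohomology (π : G →* (V ≃ₗᵢ[ℝ] V)) : Type (max v w) :=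
  Cocycles π ⧸ (Coboundaries π).submoduleOf (Cocycles π)

/-- The character `χ_π(x)`: the trace of `π(x)`. -/
noncomputable def character (π : G →* (V ≃ₗᵢ[ℝ] V)) (x : G) : ℝ :=
  LinearMap.trace ℝ V ((π x).toLinearEquiv : V →ₗ[ℝ] V)

end Cohomology

/-- Let `G` act geometrically (by isometries, properly discontinuously, cocompactly) on a proper
geodesically complete CAT(0) space `X`, and let `o ∈ X`.  Then `G` contains a rank one isometry of
`X`, or there is a constant `C` such that for every finite-dimensional orthogonal representation `π`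
of `G` on a real Euclidean space `V` and every `ρ ≥ 2` the first cohomology `H¹(G; π)` is
finite-dimensional and its dimension is at most `C / log ρ` times `dim V` plus the sum of
`|χ_π(x)| + √(dim V)` over the (finitely many) elements `x ≠ 1` of `G` with `d(o, x o) ≤ ρ`. -/
theorem result {X : Type u} [MetricSpace X] [ProperSpace X] (hX : BruhatTits X)
    (hc : GeodesicallyComplete X)
    {G : Type v} [Group G] [MulAction G X] [IsIsometricSMul G X] [ProperlyDiscontinuousSMul G X]
    (hcc : ∃ K : Set X, IsCompact K ∧ ∀ x : X, ∃ g : G, g • x ∈ K) (o : X) :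
    (∃ g : G, IsRankOne X g) ∨
      (∀ ρ : ℝ, {x : G | x ≠ 1 ∧ dist o (x • o) ≤ ρ}.Finite) ∧
      ∃ C : ℝ, ∀ (V : Type w) [NormedAddCommGroup V] [InnerProductSpace ℝ V]
        [FiniteDimensional ℝ V] (π : G →* (V ≃ₗᵢ[ℝ] V)) (ρ : ℝ), 2 ≤ ρ →
        Module.Finite ℝ (FirstCohomology π) ∧
        (Module.finrank ℝ (FirstCohomology π) : ℝ) ≤ C / Real.log ρ * (Module.finrank ℝ V +
          ∑ᶠ x ∈ {x : G | x ≠ 1 ∧ dist o (x • o) ≤ ρ},
            (|character π x| + √(Module.finrank ℝ V))) := by
  have hG : Pool.Agent.Y34.HB.Geo X G := ⟨inferInstance, inferInstance, inferInstance, hcc, hX⟩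
  by_cases hno : ∀ g : G, ¬ Pool.Agent.Y34.EL.RankOne X g
  · have hf := (Pool.Agent.Q103.BG.len_facts hG o).1
    exact Or.inr ⟨fun ρ => (hf ρ).subset fun x hx => hx.2,
      Pool.Agent.Q103.BG.rep_growth hG hc hno o hf⟩
  · left
    push Not at hno
    obtain ⟨g, τ, c, hτ, hc, he⟩ := hno
    refine ⟨g, τ, c, hτ, hc.1, hc.2, ?_⟩
    rintro ⟨H, hH⟩
    have : H ∈ Pool.Agent.Y34.HB.HP c := hH
    rw [he] at this
    exact this

end Pool.Agent.Results.MP_ff40e8_al.OrthogonalRepresentations
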